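import Pool.Agent.Helper99.SZ.Stmts3

set_option autoImplicit false

namespace Pool.Helper99.SZ

open NumberField

theorem od3_zero {L : Type} [Field L] [NumberField L] (P : Ideal (𝓞 L)) (hP : P.IsPrime) (t : ℕ) :
    Dv P t (0 : L) :=
  ⟨0, 1, fun h => hP.ne_top ((Ideal.eq_top_iff_one P).2 h), Submodule.zero_mem _, by simp⟩

theorem od3_nat (h1 : ST_DVB) {L : Type} [Field L] [NumberField L] (P : Ideal (𝓞 L))
    (hP : P.IsPrime) (hb : P ≠ ⊥) (k : ℕ) : Dv P 0 (k : L) := by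
  have := (h1 L P hP hb).1 (k : 𝓞 L)
  simpa using this

theorem od3_core (h1 : ST_DVB) {L : Type} [Field L] [NumberField L] (P : Ideal (𝓞 L))
    (hP : P.IsPrime) (hb : P ≠ ⊥) (vQ : Lˣ → ℤ) (hv : IsVal P vQ) (q E a0 : ℕ)
    (ha0 : 1 ≤ a0) (G : Subgroup Lˣ)
    (hB : ∀ x : L, ∀ a : ℕ, a0 ≤ a → Dv P a (x - 1) → ∀ j c0 : ℕ,
      Dv P (a + j * E + 1) (x ^ (c0 * q ^ j) - 1 - (c0 * q ^ j : ℕ) * (x - 1)))
    (hV : ∀ φ ∈ G, ∀ u ∈ G, ∀ x x' : Lˣ, (x : L) = (φ : L) - 1 → (x' : L) = (u : L) - 1 →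
      (a0 : ℤ) ≤ vQ x' → vQ x' ≤ vQ x → ∃ j c0 : ℕ, vQ x = vQ x' + j * E ∧
          Dv P ((vQ x).toNat + 1) ((x : L) - (c0 * q ^ j : ℕ) * (x' : L)))
    (n : ℕ) (X : Fin n → Lˣ) (hX : ∀ i, X i ∈ G) (hX1 : ∀ i, Dv P a0 ((X i : L) - 1)) (jj : ℕ)
    (hXj : ∀ i, Dv P jj ((X i : L) - 1)) (T : ℕ) :
    ODj P jj T (fun i => (X i : L)) := by
  obtain ⟨d0, dmono, dadd, dneg, dmul, done, dzpow, dmul1, _⟩ := h1 L P hP hb
  by_cases hall : ∀ i, (X i : L) = 1
  · refine ⟨1, fun _ => 0, ?_, ?_⟩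
    · simpa using od3_zero P hP jj
    · intro i
      simp only [hall i]
      simpa using od3_zero P hP T
  · push Not at hall
    obtain ⟨i0, hi0⟩ := hall
    classical
    let w : L → ℤ := fun z => if h : z ≠ 0 then vQ (Units.mk0 z h) else 0
    have hw : ∀ z : L, ∀ h : z ≠ 0, w z = vQ (Units.mk0 z h) := fun z h => by
      simp only [w]; rw [dif_pos h]
    have hwd : ∀ z : L, z ≠ 0 → ∀ t : ℕ, Dv P t z ↔ (t : ℤ) ≤ w z := by
      intro z h t
      rw [hw z h, ← hv.dv t (Units.mk0 z h)]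
      simp
    obtain ⟨i1, hi1, hmin⟩ := Finset.exists_min_image
      (Finset.univ.filter fun i => (X i : L) ≠ 1) (fun i => w ((X i : L) - 1))
      ⟨i0, by simpa using hi0⟩
    simp only [Finset.mem_filter, Finset.mem_univ, true_and] at hi1 hmin
    have hne1 : (X i1 : L) - 1 ≠ 0 := sub_ne_zero.2 hi1
    have ha : (a0 : ℤ) ≤ w ((X i1 : L) - 1) := (hwd _ hne1 a0).1 (hX1 i1)
    obtain ⟨a, haa⟩ : ∃ a : ℕ, (a : ℤ) = w ((X i1 : L) - 1) :=
      ⟨(w ((X i1 : L) - 1)).toNat, by rw [Int.toNat_of_nonneg]; omega⟩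
    have ha0a : a0 ≤ a := by omega
    have hDa : Dv P a ((X i1 : L) - 1) := (hwd _ hne1 a).2 haa.le
    have hD1 : Dv P 1 ((X i1 : L) - 1) := dmono 1 a _ (le_trans ha0 ha0a) hDa
    have hUz : ∀ k : ℤ, Dv P 0 ((X i1 : L) ^ k) := by
      intro k
      exact (done _ (dzpow 1 _ k le_rfl hD1)).2.1
    have key : ∀ i, ∀ M : ℕ, ∃ c : ℤ, Dv P M ((X i : L) * (X i1 : L) ^ (-c) - 1) ∧
        ((X i : L) * (X i1 : L) ^ (-c) = 1 ∨
          (a : ℤ) ≤ w ((X i : L) * (X i1 : L) ^ (-c) - 1)) := by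
      intro i M
      induction M with
      | zero =>
        refine ⟨0, ?_, ?_⟩
        · simpa using dmono 0 a0 _ (Nat.zero_le _) (hX1 i)
        · by_cases h : (X i : L) = 1
          · left; simp [h]
          · right
            rw [haa]
            simpa using hmin i h
      | succ M ih =>
        obtain ⟨c, hc1, hc2⟩ := ih
        set φ : L := (X i : L) * (X i1 : L) ^ (-c) with hφ
        by_cases hφ1 : φ = 1
        · refine ⟨c, ?_, Or.inl hφ1⟩
          rw [← hφ, hφ1]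
          simpa using od3_zero P hP (M + 1)
        · have hφ0 : φ - 1 ≠ 0 := sub_ne_zero.2 hφ1
          have hc3 : (a : ℤ) ≤ w (φ - 1) := hc2.resolve_left hφ1
          have hc4 : (M : ℤ) ≤ w (φ - 1) := (hwd _ hφ0 M).1 hc1
          by_cases hb1 : ((M + 1 : ℕ) : ℤ) ≤ w (φ - 1)
          · exact ⟨c, (hwd _ hφ0 _).2 hb1, Or.inr hc3⟩
          · have hbM : w (φ - 1) = M := by push_cast at hb1; omega
            have hφG : X i * X i1 ^ (-c) ∈ G := G.mul_mem (hX i) (G.zpow_mem (hX i1) _)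
            have hφv : ((X i * X i1 ^ (-c) : Lˣ) : L) = φ := by
              rw [hφ, Units.val_mul, Units.val_zpow_eq_zpow_val]
            obtain ⟨j, c0, hj1, hj2⟩ := hV _ hφG _ (hX i1) (Units.mk0 (φ - 1) hφ0)
              (Units.mk0 _ hne1) (by rw [hφv]; rfl) rfl (by rw [← hw]; exact ha)
              (by rw [← hw, ← hw, ← haa]; exact hc3)
            rw [← hw, ← hw] at hj1
            rw [← hw, hbM] at hj2
            simp only [Units.val_mk0, Int.toNat_natCast] at hj2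
            have hMj : M = a + j * E := by
              have : (M : ℤ) = a + j * E := by rw [← hbM, hj1, haa]
              exact_mod_cast this
            have hB1 := hB (X i1 : L) a ha0a hDa j c0
            rw [← hMj] at hB1
            set k : ℕ := c0 * q ^ j with hk
            have hdiff : Dv P (M + 1) (φ - (X i1 : L) ^ k) := by
              have h3 := dadd (M + 1) _ _ hj2 (dneg (M + 1) _ hB1)
              have e1 : φ - 1 - (k : L) * ((X i1 : L) - 1) +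
                  -((X i1 : L) ^ k - 1 - (k : L) * ((X i1 : L) - 1)) =
                  φ - (X i1 : L) ^ k := by ring
              rwa [e1] at h3
            have hU0 : (X i1 : L) ≠ 0 := (X i1).ne_zero
            have hnew : (X i : L) * (X i1 : L) ^ (-(c + (k : ℤ))) - 1 =
                (φ - (X i1 : L) ^ k) * (X i1 : L) ^ (-(k : ℤ)) := by
              rw [hφ, neg_add, zpow_add₀ hU0, sub_mul, ← mul_assoc]
              congr 1
              rw [← zpow_natCast, ← zpow_add₀ hU0]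
              simp
            have hD2 : Dv P (M + 1) ((X i : L) * (X i1 : L) ^ (-(c + (k : ℤ))) - 1) := by
              rw [hnew]
              have := dmul (M + 1) 0 _ _ hdiff (hUz (-(k : ℤ)))
              simpa using this
            refine ⟨c + k, hD2, ?_⟩
            by_cases h5 : (X i : L) * (X i1 : L) ^ (-(c + (k : ℤ))) = 1
            · exact Or.inl h5
            · right
              have := (hwd _ (sub_ne_zero.2 h5) _).1 hD2
              push_cast at this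
              omega
    choose c hc using fun i => key i T
    refine ⟨(X i1 : L), c, hXj i1, ?_⟩
    intro i
    have h3 := dmul T 0 _ _ (hc i).1 (hUz (c i))
    have hU0 : (X i1 : L) ≠ 0 := (X i1).ne_zero
    have e1 : ((X i : L) * (X i1 : L) ^ (-(c i)) - 1) * (X i1 : L) ^ (c i) =
        (X i : L) - (X i1 : L) ^ (c i) := by
      rw [sub_mul, mul_assoc, ← zpow_add₀ hU0]
      simp
    rw [e1] at h3
    simpa using h3

/-- the homomorphism `y ↦ e 2 y / e 1 y` -/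
noncomputable def od3_psi {K : Type} [Field K] {L : Type} [Field L] (e : Fin 3 → (K →+* L)) :
    Kˣ →* Lˣ :=
  Units.map ((e 2 : K →+* L) : K →* L) / Units.map ((e 1 : K →+* L) : K →* L)

theorem od3_psi_val {K : Type} [Field K] {L : Type} [Field L] (e : Fin 3 → (K →+* L)) (y : Kˣ) :
    ((od3_psi e y : Lˣ) : L) = e 2 (y : K) / e 1 (y : K) := by
  simp [od3_psi, Units.val_div_eq_div_val]

theorem od3_two (h1 : ST_DVB) {L : Type} [Field L] [NumberField L] (Q : Ideal (𝓞 L))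
    (hP : Q.IsPrime) (hb : Q ≠ ⊥) (q : ℕ) (hq : Odd q) (hm : ((q : ℕ) : 𝓞 L) ∈ Q) :
    ¬ Dv Q 1 (2 : L) := by
  intro h
  have h2 : (2 : 𝓞 L) ∈ Q ^ 1 := (h1 L Q hP hb).2.2.2.2.2.2.2.2 1 (2 : 𝓞 L)
    (by rw [show ((2 : 𝓞 L) : L) = 2 from map_ofNat (algebraMap (𝓞 L) L) 2]; exact h)
  rw [pow_one] at h2
  obtain ⟨t, rfl⟩ := hq
  apply hP.ne_top
  rw [Ideal.eq_top_iff_one]
  have h3 : ((2 * t + 1 : ℕ) : 𝓞 L) - (t : 𝓞 L) * 2 ∈ Q :=
    Q.sub_mem hm (Q.mul_mem_left _ h2)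
  have e1 : ((2 * t + 1 : ℕ) : 𝓞 L) - (t : 𝓞 L) * 2 = 1 := by push_cast; ring
  rwa [e1] at h3

theorem st_OD3 (hV : ST_ODV) (hB : ST_ODB) (hval : ST_VAL) (h1 : ST_DVB) : ST_OD3 := by
  intro K _ _ β a b c κ m p P 𝔞 hCD L _ _ e he j0 Q hCQ n jj s hjj hs T
  obtain ⟨vQ, hvQ⟩ := hval L Q hCQ.pr hCQ.bot
  obtain ⟨E, hE, hEp, hr, h3⟩ := hV K β a b c κ m p P 𝔞 hCD L e he j0 Q hCQ vQ hvQ
  have hq := hCD.pp j0
  obtain ⟨d0, dmono, dadd, dneg, dmul, done, dzpow, dmul1, _⟩ := h1 L Q hCQ.pr hCQ.bot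
  have hq0 : ((p j0 : ℕ) : L) ≠ 0 := by exact_mod_cast hq.ne_zero
  have hDE : Dv Q E ((p j0 : ℕ) : L) := by
    have := (hvQ.dv E (Units.mk0 _ hq0)).2 (by rw [hEp (Units.mk0 _ hq0) rfl])
    simpa using this
  have dnat := od3_nat h1 Q hCQ.pr hCQ.bot
  have hr1 : 1 ≤ (E + 1) / 2 := by omega
  -- the power twelve
  have hmain : ∃ a0 : ℕ, 1 ≤ a0 ∧ E < (p j0 - 1) * a0 ∧
      (∀ x : L, Dv Q ((E + 1) / 2) (x - 1) → Dv Q a0 (x ^ 12 - 1)) ∧
      (∀ x2 : Lˣ, (x2 : L) = 2 → vQ x2 < a0) := by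
    have hpw : ∀ x : L, Dv Q ((E + 1) / 2) (x - 1) → ∀ k : ℕ,
        Dv Q ((E + 1) / 2) (x ^ k - 1) := by
      intro x hx k
      have := dzpow _ x (k : ℤ) hr1 hx
      simpa using this
    have hodd : p j0 ≠ 2 → ∀ x2 : Lˣ, (x2 : L) = 2 → vQ x2 < 1 := by
      intro hne x2 hx2
      by_contra hcon
      have h5 : Dv Q 1 (x2 : L) := (hvQ.dv 1 x2).2 (by push_cast; omega)
      rw [hx2] at h5
      exact od3_two h1 Q hCQ.pr hCQ.bot (p j0) (hq.odd_of_ne_two hne) hCQ.pm h5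
    have hcase : p j0 = 2 ∨ p j0 = 3 ∨ 5 ≤ p j0 := by
      by_contra hcon
      push Not at hcon
      obtain ⟨h4, h5, h6⟩ := hcon
      have h7 := hq.two_le
      have h8 : p j0 = 4 := by omega
      rw [h8] at hq
      exact absurd hq (by norm_num)
    rcases hcase with h2 | h2 | h2
    · refine ⟨E + E, by omega, by rw [h2]; omega, ?_, ?_⟩
      · intro x hx
        have hD2 : Dv Q E (2 : L) := by rw [h2] at hDE; simpa using hDE
        have h4 := hpw x hx 3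
        have h5 : Dv Q E (x ^ 6 - 1) := by
          have e1 : x ^ 6 - 1 = (x ^ 3 - 1) * ((x ^ 3 - 1) + 2) := by ring
          rw [e1]
          exact dmono E _ _ (by omega) (dmul _ _ _ _ h4 (dadd _ _ _ h4
            (dmono ((E + 1) / 2) E _ (by omega) hD2)))
        have e1 : x ^ 12 - 1 = (x ^ 6 - 1) * ((x ^ 6 - 1) + 2) := by ring
        rw [e1]
        exact dmul _ _ _ _ h5 (dadd _ _ _ h5 hD2)
      · intro x2 hx2
        rw [hEp x2 (by rw [hx2, h2]; norm_num)]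
        push_cast
        omega
    · refine ⟨(E + 1) / 2 + E, by omega, by rw [h2]; omega, ?_, ?_⟩
      · intro x hx
        have hD3 : Dv Q E (3 : L) := by rw [h2] at hDE; simpa using hDE
        have h4 := hpw x hx 4
        have h0 : Dv Q 0 (x ^ 4) := (done _ (dmono 1 _ _ hr1 h4)).2.1
        have e1 : x ^ 12 - 1 = (x ^ 4 - 1) * ((x ^ 4 - 1) * (x ^ 4 - 1) + 3 * x ^ 4) := by ring
        rw [e1]
        refine dmul _ _ _ _ h4 (dadd _ _ _ (dmono E _ _ (by omega) (dmul _ _ _ _ h4 h4)) ?_)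
        have := dmul _ _ _ _ hD3 h0
        simpa using this
      · intro x2 hx2
        have := hodd (by omega) x2 hx2
        push_cast
        omega
    · refine ⟨(E + 1) / 2, hr1, ?_, ?_, ?_⟩
      · have h4 : 4 ≤ p j0 - 1 := by omega
        calc E < 4 * ((E + 1) / 2) := by omega
          _ ≤ (p j0 - 1) * ((E + 1) / 2) := Nat.mul_le_mul_right _ h4
      · intro x hx
        exact hpw x hx 12
      · intro x2 hx2
        have := hodd (by omega) x2 hx2
        have h5 : (1 : ℤ) ≤ (((E + 1) / 2 : ℕ) : ℤ) := by exact_mod_cast hr1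
        omega
  obtain ⟨a0, ha0, hEa, hx12, htwo⟩ := hmain
  have hfun : (fun i => (e 2 ((s i : Kˣ) : K) / e 1 ((s i : Kˣ) : K)) ^ 12) =
      fun i => ((od3_psi e (s i ^ 12) : Lˣ) : L) := by
    funext i
    rw [map_pow, Units.val_pow_eq_pow_val, od3_psi_val]
  rw [hfun]
  refine od3_core h1 Q hCQ.pr hCQ.bot vQ hvQ (p j0) E a0 ha0 (od3_psi e).range ?_ ?_ n
    (fun i => od3_psi e (s i ^ 12)) (fun i => ⟨_, rfl⟩) ?_ jj ?_ T
  · intro x a' ha' hx j c0
    exact hB L Q hCQ.pr hCQ.bot (p j0) hq E a' hE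
      (lt_of_lt_of_le hEa (Nat.mul_le_mul_left _ ha')) hDE x hx j c0
  · rintro φ ⟨y, rfl⟩ u ⟨y', rfl⟩ x x' hx hx' h5 h6
    have ha0' : (1 : ℤ) ≤ (a0 : ℤ) := by exact_mod_cast ha0
    refine h3 y y' x x' (by rw [hx, od3_psi_val]) (by rw [hx', od3_psi_val]) (by omega) h6 ?_
    intro x2 hx2
    exact lt_of_lt_of_le (htwo x2 hx2) h5
  · intro i
    have h5 := hx12 _ (hr (s i) (dmono 1 jj _ hjj (hs i)))
    rw [map_pow, Units.val_pow_eq_pow_val, od3_psi_val]
    exact h5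
  · intro i
    have h5 := dzpow jj _ (12 : ℤ) hjj (hs i)
    rw [map_pow, Units.val_pow_eq_pow_val, od3_psi_val]
    exact_mod_cast h5

end Pool.Helper99.SZ
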